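import Pool.Agent.H51.SzlenkDefs

/-!
Coding of Borel sets of finite level by ranks of hereditary families of finite sets, and
non-collapse of the finite Borel levels on Cantor space.
-/

set_option autoImplicit false
open Filter

namespace Pool.Agent.H51.Szlenk

lemma IsSigma.preimage {S T : Type*} [TopologicalSpace S] [TopologicalSpace T] {f : S → T}
    (hf : Continuous f) : ∀ {n : ℕ} {A : Set T}, IsSigma n A → IsSigma n (f ⁻¹' A)
  | 0, _, h => IsOpen.preimage hf h
  | n + 1, A, ⟨B, hB, hA⟩ => by
    refine ⟨fun i => f ⁻¹' (B i), fun i => (hB i).preimage hf, ?_⟩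
    rw [hA, Set.preimage_iUnion]
    rfl

/-- Cantor space -/
abbrev Cantor := ℕ → Bool

/-- universal set of level `n` -/
def univSet : ℕ → (ℕ → Set Cantor) → Set (Cantor × Cantor)
  | 0, B => {p | ∃ i, p.2 i = true ∧ p.1 ∈ B i}
  | n + 1, B => {p | ∃ i, (p.1, fun j => p.2 (Nat.pair i j)) ∉ univSet n B}

lemma isSigma_univSet (B : ℕ → Set Cantor) (hB : ∀ i, IsOpen (B i)) :
    ∀ n, IsSigma n (univSet n B)
  | 0 => by
    have : univSet 0 B = ⋃ i, ({p : Cantor × Cantor | p.2 i = true} ∩ Prod.fst ⁻¹' (B i)) := by
      ext p; simp [univSet]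
    change IsOpen _
    rw [this]
    apply isOpen_iUnion
    intro i
    apply IsOpen.inter
    · exact (isOpen_discrete ({true} : Set Bool)).preimage
        (f := fun p : Cantor × Cantor => p.2 i) (by fun_prop)
    · exact (hB i).preimage continuous_fst
  | n + 1 => by
    refine ⟨fun i => (fun p : Cantor × Cantor => (p.1, fun j => p.2 (Nat.pair i j))) ⁻¹'
      (univSet n B), fun i => (isSigma_univSet B hB n).preimage ?_, ?_⟩
    · fun_prop
    · ext p
      simp [univSet]

lemma univSet_universal (B : ℕ → Set Cantor)
    (hB : ∀ U : Set Cantor, IsOpen U → ∃ s : Set ℕ, U = ⋃ i ∈ s, B i) :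
    ∀ n (A : Set Cantor), IsSigma n A → ∃ y : Cantor, A = {x | (x, y) ∈ univSet n B}
  | 0, A, h => by
    classical
    obtain ⟨s, hs⟩ := hB A h
    refine ⟨fun i => decide (i ∈ s), ?_⟩
    rw [hs]
    ext x
    simp [univSet]
  | n + 1, A, ⟨C, hC, hA⟩ => by
    choose y hy using fun i => univSet_universal B hB n (C i) (hC i)
    refine ⟨fun m => y (Nat.unpair m).1 (Nat.unpair m).2, ?_⟩
    rw [hA]
    ext x
    simp only [Set.mem_iUnion, Set.mem_compl_iff, univSet, Set.mem_ofPred_eq, Nat.unpair_pair]
    constructor
    · rintro ⟨i, hi⟩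
      refine ⟨i, fun h => hi ?_⟩
      rw [hy i]; exact h
    · rintro ⟨i, hi⟩
      refine ⟨i, fun h => hi ?_⟩
      rw [hy i] at h; exact h

/-- there is a countable basis of clopen sets of Cantor space -/
lemma exists_clopen_basis : ∃ B : ℕ → Set Cantor, (∀ i, IsClopen (B i)) ∧
    ∀ U : Set Cantor, IsOpen U → ∃ s : Set ℕ, U = ⋃ i ∈ s, B i := by
  classical
  -- sets of the form {x | x agrees with a list l on its length}
  let B' : List Bool → Set Cantor := fun l => {x | ∀ i : ℕ, ∀ b ∈ l[i]?, x i = b}
  have hB' : ∀ l, IsClopen (B' l) := by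
    intro l
    have : B' l = ⋂ i : Fin l.length, {x : Cantor | x i = l[i]} := by
      ext x
      simp only [B', Set.mem_ofPred_eq, Set.mem_iInter]
      constructor
      · intro h i
        exact h i l[i] (by simp)
      · intro h i b hb
        rw [Option.mem_def, List.getElem?_eq_some_iff] at hb
        obtain ⟨hi, rfl⟩ := hb
        exact h ⟨i, hi⟩
    rw [this]
    apply isClopen_iInter_of_finite
    intro i
    exact (isClopen_discrete {l[i]}).preimage (continuous_apply (i : ℕ))
  have hmem : ∀ (U : Set Cantor), IsOpen U → ∀ x ∈ U, ∃ l, x ∈ B' l ∧ B' l ⊆ U := by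
    intro U hU x hx
    rw [isOpen_pi_iff] at hU
    obtain ⟨I, u, hu, hsub⟩ := hU x hx
    obtain ⟨N, hN⟩ := I.exists_nat_subset_range
    refine ⟨(List.range N).map x, ?_, ?_⟩
    · intro i b hb
      rw [Option.mem_def, List.getElem?_eq_some_iff] at hb
      obtain ⟨hi, rfl⟩ := hb
      simp
    · intro z hz
      apply hsub
      intro i hi
      have hiN : i < N := Finset.mem_range.mp (hN hi)
      have := hz i (x i) (by simp [hiN])
      rw [this]
      exact (hu i hi).2
  let e : ℕ → List Bool := fun n => (Encodable.decode (α := List Bool) n).getD []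
  refine ⟨fun n => B' (e n), fun n => hB' _, ?_⟩
  intro U hU
  refine ⟨{n | B' (e n) ⊆ U}, ?_⟩
  ext x
  simp only [Set.mem_iUnion, Set.mem_ofPred_eq, exists_prop]
  constructor
  · intro hx
    obtain ⟨l, hl, hlU⟩ := hmem U hU x hx
    refine ⟨Encodable.encode l, ?_, ?_⟩
    · simpa [e] using hlU
    · simpa [e] using hl
  · rintro ⟨n, hn, hx⟩
    exact hn hx

/-- the finite Borel levels do not collapse on Cantor space -/
lemma exists_not_isSigma (n : ℕ) : ∃ A : Set Cantor, IsSigma n A ∧ ¬ IsSigma n Aᶜ := by
  obtain ⟨B, hB1, hB2⟩ := exists_clopen_basis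
  refine ⟨(fun x : Cantor => (x, x)) ⁻¹' (univSet n B), ?_, ?_⟩
  · exact (isSigma_univSet B (fun i => (hB1 i).isOpen) n).preimage (by fun_prop)
  · intro h
    obtain ⟨y, hy⟩ := univSet_universal B hB2 n _ h
    have h1 : y ∈ ((fun x : Cantor => (x, x)) ⁻¹' (univSet n B))ᶜ ↔ (y, y) ∈ univSet n B := by
      conv_lhs => rw [hy]
      rfl
    simp at h1

/-- `Big k t F`: there is an infinitely branching tree of height `k` above `t` in the family `F` -/
def Big : ℕ → Finset ℕ → Set (Finset ℕ) → Prop
  | 0, t, F => t ∈ F
  | k + 1, t, F => ∃ᶠ n in atTop, Big k (insert n t) F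

/-- hereditary families of finite sets -/
def Hered (F : Set (Finset ℕ)) : Prop := ∀ s ∈ F, ∀ t ⊆ s, t ∈ F

lemma Big.mono {F : Set (Finset ℕ)} (hF : Hered F) :
    ∀ {k : ℕ} {s t : Finset ℕ}, t ⊆ s → Big k s F → Big k t F
  | 0, s, t, h, hb => hF s hb t h
  | k + 1, s, t, h, hb => by
    have : ∃ᶠ n in atTop, Big k (insert n s) F := hb
    exact this.mono fun n hn => Big.mono hF (Finset.insert_subset_insert n h) hn

lemma Big.pred {F : Set (Finset ℕ)} (hF : Hered F) {k : ℕ} {t : Finset ℕ}
    (h : Big (k + 1) t F) : Big k t F := by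
  have h' : ∃ᶠ n in atTop, Big k (insert n t) F := h
  obtain ⟨n, hn⟩ := h'.exists
  exact hn.mono hF (Finset.subset_insert n t)

lemma Big.mem {F : Set (Finset ℕ)} (hF : Hered F) :
    ∀ {k : ℕ} {t : Finset ℕ}, Big k t F → t ∈ F
  | 0, _, h => h
  | _ + 1, _, h => (h.pred hF).mem hF

/-- `Enc C A`: the set `A` can be coded by ranks of hereditary families depending continuously
on the point, with rank at most `C` outside `A` -/
def Enc (C : ℕ) (A : Set Cantor) : Prop :=
  ∃ F : Cantor → Set (Finset ℕ), (∀ x, Hered (F x)) ∧ (∀ x, ∅ ∈ F x) ∧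
    (∀ s, IsClopen {x | s ∈ F x}) ∧
    (∀ x ∈ A, ∀ k, Big k ∅ (F x)) ∧ (∀ x, x ∉ A → ¬ Big C ∅ (F x))

lemma Enc.mono {C D : ℕ} (h : C ≤ D) {A : Set Cantor} (hA : Enc C A) : Enc D A := by
  obtain ⟨F, h1, h2, h3, h4, h5⟩ := hA
  refine ⟨F, h1, h2, h3, h4, ?_⟩
  intro x hx hb
  apply h5 x hx
  clear h4 h5
  induction D, h using Nat.le_induction with
  | base => exact hb
  | succ n _ ih => exact ih (hb.pred (h1 x))

lemma enc_clopen {A : Set Cantor} (hA : IsClopen A) : Enc 1 A := by
  classical
  refine ⟨fun x => if x ∈ A then Set.univ else {∅}, ?_, ?_, ?_, ?_, ?_⟩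
  · intro x s hs t ht
    by_cases hx : x ∈ A
    · simp [hx]
    · simp only [hx, if_false, Set.mem_singleton_iff] at hs ⊢
      rw [hs] at ht
      exact Finset.subset_empty.mp ht
  · intro x
    by_cases hx : x ∈ A <;> simp [hx]
  · intro s
    by_cases hs : s = ∅
    · have : {x : Cantor | s ∈ (if x ∈ A then (Set.univ : Set (Finset ℕ)) else {∅})}
          = Set.univ := by
        ext x; by_cases hx : x ∈ A <;> simp [hs]
      rw [this]; exact isClopen_univ
    · have : {x : Cantor | s ∈ (if x ∈ A then (Set.univ : Set (Finset ℕ)) else {∅})} = A := by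
        ext x; by_cases hx : x ∈ A <;> simp [hx, hs]
      rw [this]; exact hA
  · intro x hx k
    simp only [hx, if_true]
    have : ∀ k t, Big k t (Set.univ : Set (Finset ℕ)) := by
      intro k
      induction k with
      | zero => intro t; exact Set.mem_univ t
      | succ k ih => intro t; exact Frequently.of_forall fun n => ih _
    exact this k ∅
  · intro x hx hb
    simp only [hx, if_false] at hb
    have hb' : ∃ᶠ n in atTop, Big 0 (insert n ∅) ({∅} : Set (Finset ℕ)) := hb
    obtain ⟨n, hn⟩ := hb'.exists
    have : (insert n ∅ : Finset ℕ) ∈ ({∅} : Set (Finset ℕ)) := hn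
    simp at this


lemma enc_iUnion {C : ℕ} {A : ℕ → Set Cantor} (hA : ∀ i, Enc C (A i)) :
    Enc (C + 1) (⋃ i, A i) := by
  classical
  choose F h1 h2 h3 h4 h5 using hA
  -- second components
  let sn : Finset ℕ → Finset ℕ := fun s => s.image (fun n => (Nat.unpair n).2)
  let G : Cantor → Set (Finset ℕ) := fun x =>
    {s | ∃ i, (∀ n ∈ s, (Nat.unpair n).1 = i) ∧ sn s ∈ F i x}
  have hG : ∀ x, Hered (G x) := by
    rintro x s ⟨i, hi, hs⟩ t ht
    exact ⟨i, fun n hn => hi n (ht hn), h1 i x _ hs _ (Finset.image_subset_image ht)⟩
  have hcol : ∀ x i s, s ∈ G x → s.Nonempty → (∀ n ∈ s, (Nat.unpair n).1 = i) →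
      sn s ∈ F i x := by
    rintro x i s ⟨j, hj, hs⟩ ⟨n, hn⟩ hi
    have : i = j := by rw [← hi n hn, hj n hn]
    rw [this]; exact hs
  refine ⟨G, hG, ?_, ?_, ?_, ?_⟩
  · intro x
    exact ⟨0, by simp, by simpa [sn] using h2 0 x⟩
  · intro s
    rcases s.eq_empty_or_nonempty with rfl | ⟨m, hm⟩
    · have : {x : Cantor | ∅ ∈ G x} = Set.univ := by
        ext x
        simp only [Set.mem_ofPred_eq, Set.mem_univ, iff_true]
        exact ⟨0, by simp, by simpa [sn] using h2 0 x⟩
      rw [this]; exact isClopen_univ
    · by_cases hc : ∀ n ∈ s, (Nat.unpair n).1 = (Nat.unpair m).1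
      · have : {x : Cantor | s ∈ G x} = {x | sn s ∈ F (Nat.unpair m).1 x} := by
          ext x
          simp only [Set.mem_ofPred_eq]
          exact ⟨fun h => hcol x _ s h ⟨m, hm⟩ hc, fun h => ⟨_, hc, h⟩⟩
        rw [this]; exact h3 _ _
      · have : {x : Cantor | s ∈ G x} = ∅ := by
          ext x
          simp only [Set.mem_ofPred_eq, Set.mem_empty_iff_false, iff_false]
          rintro ⟨i, hi, -⟩
          apply hc
          intro n hn
          rw [hi n hn, hi m hm]
        rw [this]; exact isClopen_empty
  · intro x hx k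
    obtain ⟨i, hi⟩ := Set.mem_iUnion.mp hx
    have key : ∀ k (t : Finset ℕ), Big k t (F i x) →
        Big k (t.image (fun m => Nat.pair i m)) (G x) := by
      intro k
      induction k with
      | zero =>
        intro t ht
        refine ⟨i, ?_, ?_⟩
        · intro n hn
          obtain ⟨m, _, rfl⟩ := Finset.mem_image.mp hn
          simp
        · have : sn (t.image (fun m => Nat.pair i m)) = t := by
            ext m
            simp [sn]
          rw [this]; exact ht
      | succ k ih =>
        intro t ht
        have ht' : ∃ᶠ n in atTop, Big k (insert n t) (F i x) := ht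
        change ∃ᶠ n in atTop, Big k (insert n (t.image (fun m => Nat.pair i m))) (G x)
        rw [frequently_atTop] at ht' ⊢
        intro a
        obtain ⟨b, hb, hb2⟩ := ht' a
        refine ⟨Nat.pair i b, le_trans hb (Nat.right_le_pair i b), ?_⟩
        have := ih _ hb2
        rwa [Finset.image_insert] at this
    have := key k ∅ (h4 i x hi k)
    simpa using this
  · intro x hx hb
    have hx' : ∀ i, x ∉ A i := fun i hi => hx (Set.mem_iUnion.mpr ⟨i, hi⟩)
    have key : ∀ k (t : Finset ℕ) i, t.Nonempty → (∀ n ∈ t, (Nat.unpair n).1 = i) →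
        Big k t (G x) → Big k (sn t) (F i x) := by
      intro k
      induction k with
      | zero =>
        intro t i hne ht hb
        exact hcol x i t hb hne ht
      | succ k ih =>
        intro t i hne ht hb
        have hb' : ∃ᶠ n in atTop, Big k (insert n t) (G x) := hb
        change ∃ᶠ n in atTop, Big k (insert n (sn t)) (F i x)
        have hall : ∀ n, Big k (insert n t) (G x) → (Nat.unpair n).1 = i ∧
            Big k (insert (Nat.unpair n).2 (sn t)) (F i x) := by
          intro n hn
          have hmem : insert n t ∈ G x := hn.mem (hG x)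
          obtain ⟨j, hj, -⟩ := hmem
          obtain ⟨m, hm⟩ := hne
          have hji : j = i := by rw [← hj m (Finset.mem_insert_of_mem hm), ht m hm]
          have hni : (Nat.unpair n).1 = i := by
            rw [hj n (Finset.mem_insert_self n t), hji]
          refine ⟨hni, ?_⟩
          have := ih (insert n t) i ⟨n, Finset.mem_insert_self n t⟩ (by
            intro a ha
            rcases Finset.mem_insert.mp ha with rfl | ha
            · exact hni
            · exact ht a ha) hn
          simpa [sn, Finset.image_insert] using this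
        rw [frequently_atTop] at hb' ⊢
        intro a
        obtain ⟨b, hb, hb2⟩ := hb' (Nat.pair i a)
        obtain ⟨e1, e2⟩ := hall b hb2
        refine ⟨(Nat.unpair b).2, ?_, e2⟩
        by_contra hlt
        push Not at hlt
        have : b < Nat.pair i a := by
          have h := Nat.pair_lt_pair_right i hlt
          rw [← e1, Nat.pair_unpair] at h
          rw [← e1]; exact h
        omega
    have hb' : ∃ᶠ n in atTop, Big C (insert n ∅) (G x) := hb
    obtain ⟨n, hn⟩ := hb'.exists
    have := key C _ (Nat.unpair n).1 (Finset.insert_nonempty n ∅) (by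
      intro m hm
      rcases Finset.mem_insert.mp hm with rfl | hm
      · rfl
      · simp at hm) hn
    exact h5 _ x (hx' _) (this.mono (h1 _ x) (Finset.empty_subset _))

/-- the list coded by a natural number -/
def dl (n : ℕ) : List ℕ := Denumerable.ofNat (List ℕ) n

/-- row `r` of a finite set of (codes of) lists -/
def row (r : ℕ) (s : Finset ℕ) : Finset ℕ :=
  s.biUnion (fun n => ((dl n)[r]?).toFinset)

lemma mem_row {r : ℕ} {s : Finset ℕ} {m : ℕ} : m ∈ row r s ↔ ∃ n ∈ s, (dl n)[r]? = some m := by
  simp [row]

lemma row_mono {r : ℕ} {s t : Finset ℕ} (h : s ⊆ t) : row r s ⊆ row r t :=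
  Finset.biUnion_subset_biUnion_of_subset_left _ h

lemma row_insert (r n : ℕ) (s : Finset ℕ) :
    row r (insert n s) = ((dl n)[r]?).toFinset ∪ row r s := by
  simp [row, Finset.biUnion_insert]

lemma row_empty (r : ℕ) : row r ∅ = ∅ := by simp [row]

/-- spread-out sets of codes of lists -/
def Spread (s : Finset ℕ) : Prop :=
  ∀ p ∈ s, ∀ q ∈ s, p < q → p < (dl q).length ∧ ∀ m ∈ dl q, p < m

lemma enc_iInter {C : ℕ} {A : ℕ → Set Cantor} (hA : ∀ i, Enc C (A i)) :
    Enc (2 * C) (⋂ i, A i) := by
  classical
  choose F h1 h2 h3 h4 h5 using hA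
  let G : Cantor → Set (Finset ℕ) := fun x => {s | Spread s ∧ ∀ r, row r s ∈ F r x}
  have hG : ∀ x, Hered (G x) := by
    rintro x s ⟨hs, hr⟩ t ht
    exact ⟨fun p hp q hq => hs p (ht hp) q (ht hq), fun r => h1 r x _ (hr r) _ (row_mono ht)⟩
  refine ⟨G, hG, ?_, ?_, ?_, ?_⟩
  · intro x
    refine ⟨by intro p hp; simp at hp, fun r => ?_⟩
    rw [row_empty]; exact h2 r x
  · intro s
    by_cases hs : Spread s
    · obtain ⟨L, hL⟩ : ∃ L, ∀ r, L ≤ r → row r s = ∅ := by
        refine ⟨s.sup (fun n => (dl n).length), fun r hr => ?_⟩
        rw [Finset.eq_empty_iff_forall_notMem]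
        intro m hm
        obtain ⟨n, hn, hnm⟩ := mem_row.mp hm
        have h6 : (dl n).length ≤ s.sup (fun n => (dl n).length) :=
          Finset.le_sup (f := fun n => (dl n).length) hn
        rw [List.getElem?_eq_none (by omega)] at hnm
        simp at hnm
      have : {x : Cantor | s ∈ G x} = ⋂ r : Fin L, {x | row r s ∈ F r x} := by
        ext x
        simp only [G, Set.mem_ofPred_eq, Set.mem_iInter]
        constructor
        · rintro ⟨-, h⟩ r
          exact h r
        · intro h
          refine ⟨hs, fun r => ?_⟩
          by_cases hr : r < L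
          · exact h ⟨r, hr⟩
          · rw [hL r (by omega)]; exact h2 r x
      rw [this]
      exact isClopen_iInter_of_finite fun r => h3 _ _
    · have : {x : Cantor | s ∈ G x} = ∅ := by
        ext x
        simp only [G, Set.mem_ofPred_eq, Set.mem_empty_iff_false, iff_false]
        exact fun h => hs h.1
      rw [this]; exact isClopen_empty
  · intro x hx k
    have hx' : ∀ i, x ∈ A i := fun i => Set.mem_iInter.mp hx i
    have key : ∀ k (t : Finset ℕ), Spread t → (∀ r, Big k (row r t) (F r x)) → Big k t (G x) := by
      intro k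
      induction k with
      | zero => intro t ht h; exact ⟨ht, h⟩
      | succ k ih =>
        intro t ht h
        change ∃ᶠ n in atTop, Big k (insert n t) (G x)
        rw [frequently_atTop]
        intro a
        -- bound for everything so far
        let M := max a (t.sup id)
        have hM : ∀ p ∈ t, p ≤ M := fun p hp =>
          le_trans (Finset.le_sup (f := id) hp) (le_max_right _ _)
        have hch : ∀ r, ∃ m, M + 1 ≤ m ∧ Big k (insert m (row r t)) (F r x) := by
          intro r
          have h' : ∃ᶠ n in atTop, Big k (insert n (row r t)) (F r x) := h r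
          rw [frequently_atTop] at h'
          exact h' (M + 1)
        choose m hm1 hm2 using hch
        -- the list `m 0, ..., m (L-1)`, with L large enough for the code to exceed M
        obtain ⟨L, hL1, hL2⟩ : ∃ L, M + 1 ≤ L ∧
            M + 1 ≤ Encodable.encode ((List.range L).map m) := by
          have hinj : Function.Injective
              (fun L : ℕ => Encodable.encode ((List.range L).map m)) := by
            intro L L' hLL
            have h7 := Encodable.encode_injective hLL
            have h8 := congrArg List.length h7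
            simpa using h8
          have h9 := hinj.nat_tendsto_atTop
          obtain ⟨L, hL⟩ := ((h9.eventually_ge_atTop (M + 1)).and
            (eventually_ge_atTop (M + 1))).exists
          exact ⟨L, hL.2, hL.1⟩
        set P := Encodable.encode ((List.range L).map m) with hP
        have hdl : dl P = (List.range L).map m := by simp [dl, hP]
        refine ⟨P, by omega, ih _ ?_ ?_⟩
        · intro p hp q hq hpq
          rcases Finset.mem_insert.mp hq with rfl | hq'
          · rcases Finset.mem_insert.mp hp with rfl | hp'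
            · omega
            · have h10 := hM p hp'
              rw [hdl]
              refine ⟨by simp; omega, ?_⟩
              intro v hv
              obtain ⟨r, -, rfl⟩ := List.mem_map.mp hv
              have := hm1 r
              omega
          · rcases Finset.mem_insert.mp hp with rfl | hp'
            · have := hM q hq'
              omega
            · exact ht p hp' q hq' hpq
        · intro r
          rw [row_insert, hdl]
          by_cases hr : r < L
          · have : (((List.range L).map m)[r]?).toFinset = {m r} := by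
              rw [List.getElem?_map, List.getElem?_range hr]
              simp
            rw [this, ← Finset.insert_eq]
            exact hm2 r
          · have : (((List.range L).map m)[r]?).toFinset = ∅ := by
              rw [List.getElem?_eq_none (by simp; omega)]
              simp
            rw [this, Finset.empty_union]
            exact (h r).pred (h1 r x)
    apply key k ∅
    · intro p hp; simp at hp
    · intro r
      rw [row_empty]
      exact h4 r x (hx' r) k
  · intro x hx hb
    obtain ⟨r, hr⟩ : ∃ r, x ∉ A r := by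
      by_contra hcon
      push Not at hcon
      exact hx (Set.mem_iInter.mpr hcon)
    have key : ∀ j (t : Finset ℕ), Big (2 * j) t (G x) → Big j (row r t) (F r x) := by
      intro j
      induction j with
      | zero => intro t ht; exact ht.2 r
      | succ j ih =>
        intro t ht
        have ht' : ∃ᶠ n in atTop, Big (2 * j + 1) (insert n t) (G x) := ht
        change ∃ᶠ n in atTop, Big j (insert n (row r t)) (F r x)
        rw [frequently_atTop] at ht' ⊢
        intro a
        obtain ⟨p, hp, hp2⟩ := ht' (max a r)
        have hp3 : ∃ᶠ n in atTop, Big (2 * j) (insert n (insert p t)) (G x) := hp2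
        rw [frequently_atTop] at hp3
        obtain ⟨q, hq, hq2⟩ := hp3 (p + 1)
        have hmem := hq2.mem (hG x)
        obtain ⟨hl, hall⟩ := hmem.1 p (by simp) q (by simp) (by omega)
        have hrl : r < (dl q).length := by
          have := le_trans (le_max_right a r) hp
          omega
        refine ⟨(dl q)[r], ?_, ?_⟩
        · have := hall (dl q)[r] (List.getElem_mem hrl)
          have := le_trans (le_max_left a r) hp
          omega
        · refine (ih _ hq2).mono (h1 r x) ?_
          intro v hv
          rcases Finset.mem_insert.mp hv with rfl | hv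
          · rw [mem_row]
            exact ⟨q, by simp, List.getElem?_eq_getElem hrl⟩
          · obtain ⟨n, hn, hn2⟩ := mem_row.mp hv
            rw [mem_row]
            exact ⟨n, by simp [hn], hn2⟩
    have := key C ∅ hb
    rw [row_empty] at this
    exact h5 r x hr this

/-- every Borel set of finite level, and its complement, can be coded -/
lemma enc_of_isSigma : ∀ n : ℕ, ∃ C, ∀ A : Set Cantor, IsSigma n A → Enc C A ∧ Enc C Aᶜ
  | 0 => by
    obtain ⟨B, hB1, hB2⟩ := exists_clopen_basis
    refine ⟨2, fun A hA => ?_⟩
    obtain ⟨s, hs⟩ := hB2 A hA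
    classical
    let B' : ℕ → Set Cantor := fun i => if i ∈ s then B i else ∅
    have hB' : ∀ i, IsClopen (B' i) := by
      intro i
      by_cases hi : i ∈ s
      · simp only [B', hi, if_true]; exact hB1 i
      · simp only [B', hi, if_false]; exact isClopen_empty
    have hA' : A = ⋃ i, B' i := by
      rw [hs]
      ext x
      simp only [B', Set.mem_iUnion]
      constructor
      · rintro ⟨i, hi, hx⟩
        exact ⟨i, by simpa [hi] using hx⟩
      · rintro ⟨i, hx⟩
        by_cases hi : i ∈ s
        · exact ⟨i, hi, by simpa [hi] using hx⟩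
        · simp [hi] at hx
    constructor
    · rw [hA']
      exact enc_iUnion fun i => enc_clopen (hB' i)
    · rw [hA', Set.compl_iUnion]
      exact enc_iInter fun i => enc_clopen (hB' i).compl
  | n + 1 => by
    obtain ⟨C, hC⟩ := enc_of_isSigma n
    refine ⟨2 * C + 1, ?_⟩
    rintro A ⟨B, hB, rfl⟩
    constructor
    · exact (enc_iUnion fun i => (hC (B i) (hB i)).2).mono (by omega)
    · rw [Set.compl_iUnion]
      simp only [compl_compl]
      exact (enc_iInter fun i => (hC (B i) (hB i)).1).mono (by omega)

end Pool.Agent.H51.Szlenk
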