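import Mathlib

/-!
Definitions for `MP_a496e9_an`: pseudonorms on the rational sequences, the coded Banach spaces `X_μ`,
Szlenk derivations, summable Szlenk index, finite Borel classes.
-/

set_option autoImplicit false

namespace Pool.Agent.H51.Szlenk

/-- `V`: the `ℚ`-vector space of finitely supported rational sequences, with Hamel basis
`e_n = Finsupp.single n 1`. -/
abbrev V := ℕ →₀ ℚ

/-- `c₀₀`: the real vector space of finitely supported real sequences. -/
abbrev c00 := ℕ →₀ ℝ

/-- the inclusion `V ⊆ c₀₀`. -/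
noncomputable def toReal (v : V) : c00 := v.mapRange (fun q : ℚ => (q : ℝ)) Rat.cast_zero

/-- `μ : V → ℝ` is a pseudonorm on the `ℚ`-vector space `V`. -/
structure IsPseudonorm (μ : V → ℝ) : Prop where
  nonneg : ∀ v, 0 ≤ μ v
  add_le : ∀ v w, μ (v + w) ≤ μ v + μ w
  smul : ∀ (q : ℚ) (v : V), μ (q • v) = |(q : ℝ)| * μ v

/-- the set `𝒫` of all pseudonorms on `V`, a subset of `ℝ^V` -/
def PP : Set (V → ℝ) := {μ | IsPseudonorm μ}

/-- the cost of approximating `x ∈ c₀₀` by `v ∈ V` (auxiliary for the extension of a pseudonorm) -/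
noncomputable def cost (μ : V → ℝ) (x : c00) (v : V) : ℝ :=
  μ v + (x - toReal v).sum (fun n t => |t| * μ (Finsupp.single n 1))

lemma toReal_apply (v : V) (n : ℕ) : toReal v n = (v n : ℝ) := by simp [toReal]

lemma toReal_add (v w : V) : toReal (v + w) = toReal v + toReal w := by
  ext n; simp [toReal]

lemma toReal_smul (q : ℚ) (v : V) : toReal (q • v) = (q : ℝ) • toReal v := by
  ext n; simp [toReal]

lemma toReal_sub (v w : V) : toReal (v - w) = toReal v - toReal w := by
  ext n; simp [toReal]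

/-- weighted `ℓ₁` norm on `c₀₀` with weights `w` (auxiliary) -/
noncomputable def wt (w : ℕ → ℝ) (z : c00) : ℝ := z.sum (fun n t => |t| * w n)

lemma wt_eq (w : ℕ → ℝ) (z : c00) (s : Finset ℕ) (hs : z.support ⊆ s) :
    wt w z = ∑ n ∈ s, |z n| * w n :=
  Finsupp.sum_of_support_subset z hs _ (by simp)

lemma wt_nonneg {w : ℕ → ℝ} (hw : ∀ n, 0 ≤ w n) (z : c00) : 0 ≤ wt w z :=
  Finset.sum_nonneg fun n _ => mul_nonneg (abs_nonneg _) (hw n)

lemma wt_zero (w : ℕ → ℝ) : wt w 0 = 0 := by simp [wt]

lemma wt_add_le {w : ℕ → ℝ} (hw : ∀ n, 0 ≤ w n) (z z' : c00) :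
    wt w (z + z') ≤ wt w z + wt w z' := by
  classical
  have h1 := wt_eq w z (z.support ∪ z'.support) Finset.subset_union_left
  have h2 := wt_eq w z' (z.support ∪ z'.support) Finset.subset_union_right
  have h3 := wt_eq w (z + z') (z.support ∪ z'.support) Finsupp.support_add
  rw [h1, h2, h3, ← Finset.sum_add_distrib]
  apply Finset.sum_le_sum
  intro n _
  rw [← add_mul, Finsupp.add_apply]
  exact mul_le_mul_of_nonneg_right (abs_add_le _ _) (hw n)

lemma wt_smul (w : ℕ → ℝ) (c : ℝ) (z : c00) : wt w (c • z) = |c| * wt w z := by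
  have h1 := wt_eq w z z.support subset_rfl
  have h2 := wt_eq w (c • z) z.support Finsupp.support_smul
  rw [h1, h2, Finset.mul_sum]
  apply Finset.sum_congr rfl
  intro n _
  rw [Finsupp.smul_apply, smul_eq_mul, abs_mul, mul_assoc]

lemma wt_single (w : ℕ → ℝ) (n : ℕ) (a : ℝ) : wt w (Finsupp.single n a) = |a| * w n := by
  simp [wt]

lemma exists_wt_lt {w : ℕ → ℝ} (hw : ∀ n, 0 ≤ w n) (x : c00) :
    ∀ ε : ℝ, 0 < ε → ∃ v : V, wt w (x - toReal v) < ε := by
  induction x using Finsupp.induction_linear with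
  | zero =>
    intro ε hε
    refine ⟨0, ?_⟩
    have : (0 : c00) - toReal 0 = 0 := by ext n; simp [toReal]
    rw [this, wt_zero]; exact hε
  | add x y hx hy =>
    intro ε hε
    obtain ⟨u, hu⟩ := hx (ε / 2) (by linarith)
    obtain ⟨v, hv⟩ := hy (ε / 2) (by linarith)
    refine ⟨u + v, ?_⟩
    have : x + y - toReal (u + v) = (x - toReal u) + (y - toReal v) := by
      rw [toReal_add]; abel
    rw [this]
    linarith [wt_add_le hw (x - toReal u) (y - toReal v)]
  | single n a =>
    intro ε hε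
    have hpos : 0 < ε / (w n + 1) := div_pos hε (by linarith [hw n])
    obtain ⟨q, hq1, hq2⟩ := exists_rat_btwn (show a < a + ε / (w n + 1) by linarith)
    refine ⟨Finsupp.single n q, ?_⟩
    have : Finsupp.single n a - toReal (Finsupp.single n q) = Finsupp.single n (a - q) := by
      rw [toReal, Finsupp.mapRange_single, Finsupp.single_sub]
    rw [this, wt_single]
    have h1 : |a - (q : ℝ)| < ε / (w n + 1) := by
      rw [abs_lt]; constructor <;> linarith
    calc |a - (q : ℝ)| * w n ≤ |a - (q : ℝ)| * (w n + 1) := by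
          apply mul_le_mul_of_nonneg_left _ (abs_nonneg _); linarith
      _ < ε / (w n + 1) * (w n + 1) :=
          mul_lt_mul_of_pos_right h1 (by linarith [hw n])
      _ = ε := div_mul_cancel₀ _ (by linarith [hw n])

lemma IsPseudonorm.zero {μ : V → ℝ} (hμ : IsPseudonorm μ) : μ 0 = 0 := by
  have := hμ.smul 0 0
  simpa using this

lemma IsPseudonorm.le_wt {μ : V → ℝ} (hμ : IsPseudonorm μ) (v : V) :
    μ v ≤ wt (fun n => μ (Finsupp.single n 1)) (toReal v) := by
  have h1 : v = ∑ n ∈ v.support, Finsupp.single n (v n) := (Finsupp.sum_single v).symm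
  have h2 : ∀ (n : ℕ) (q : ℚ), μ (Finsupp.single n q) = |(q : ℝ)| * μ (Finsupp.single n 1) := by
    intro n q
    rw [← hμ.smul]; simp
  have h3 : (toReal v).support ⊆ v.support := by
    intro n hn
    rw [Finsupp.mem_support_iff] at hn ⊢
    intro h0
    apply hn
    rw [toReal_apply, h0]; simp
  rw [wt_eq _ (toReal v) v.support h3]
  conv_lhs => rw [h1]
  refine (Finset.le_sum_of_subadditive μ hμ.zero.le hμ.add_le v.support _).trans (le_of_eq ?_)
  apply Finset.sum_congr rfl
  intro n _
  rw [h2, toReal_apply]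

lemma cost_nonneg {μ : V → ℝ} (hμ : IsPseudonorm μ) (x : c00) (v : V) : 0 ≤ cost μ x v :=
  add_nonneg (hμ.nonneg v) (wt_nonneg (w := fun n => μ (Finsupp.single n 1))
    (fun _ => hμ.nonneg _) _)

lemma cost_bdd {μ : V → ℝ} (hμ : IsPseudonorm μ) (x : c00) : BddBelow (Set.range (cost μ x)) :=
  ⟨0, by rintro _ ⟨v, rfl⟩; exact cost_nonneg hμ x v⟩

lemma cost_eq (μ : V → ℝ) (x : c00) (v : V) :
    cost μ x v = μ v + wt (fun n => μ (Finsupp.single n 1)) (x - toReal v) := rfl

/-- every pseudonorm on `V` extends to a (unique) real seminorm on `c₀₀` -/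
theorem exists_extension {μ : V → ℝ} (hμ : IsPseudonorm μ) :
    ∃ p : Seminorm ℝ c00, ∀ v : V, p (toReal v) = μ v := by
  have hw : ∀ n, 0 ≤ μ (Finsupp.single n 1) := fun n => hμ.nonneg _
  have hself : ∀ v : V, ⨅ u, cost μ (toReal v) u = μ v := by
    intro v
    apply le_antisymm
    · refine (ciInf_le (cost_bdd hμ _) v).trans (le_of_eq ?_)
      rw [cost_eq, sub_self, wt_zero, add_zero]
    · apply le_ciInf
      intro u
      rw [cost_eq, ← toReal_sub]
      calc μ v = μ (u + (v - u)) := by congr 1; abel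
        _ ≤ μ u + μ (v - u) := hμ.add_le _ _
        _ ≤ _ := by linarith [hμ.le_wt (v - u)]
  refine ⟨Seminorm.ofSMulLE (fun x => ⨅ v, cost μ x v) ?_ ?_ ?_, ?_⟩
  · have := hself 0
    rw [hμ.zero] at this
    have h0 : toReal 0 = (0 : c00) := by ext n; simp [toReal]
    rwa [h0] at this
  · intro x y
    have h1 : ∀ u v, (⨅ v, cost μ (x + y) v) ≤ cost μ x u + cost μ y v := by
      intro u v
      refine (ciInf_le (cost_bdd hμ _) (u + v)).trans ?_
      rw [cost_eq, cost_eq, cost_eq]
      have : x + y - toReal (u + v) = (x - toReal u) + (y - toReal v) := by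
        rw [toReal_add]; abel
      rw [this]
      linarith [hμ.add_le u v, wt_add_le hw (x - toReal u) (y - toReal v)]
    exact le_ciInf_add_ciInf h1
  · intro c x
    rw [Real.norm_eq_abs, Real.mul_iInf_of_nonneg (abs_nonneg c)]
    apply le_ciInf
    intro v
    apply le_of_forall_pos_le_add
    intro ε hε
    set D := μ v + wt (fun n => μ (Finsupp.single n 1)) (toReal v) with hD
    have hD0 : 0 ≤ D := add_nonneg (hμ.nonneg v) (wt_nonneg hw _)
    obtain ⟨q, hq1, hq2⟩ := exists_rat_btwn (show c < c + ε / (D + 1) by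
      have : 0 < ε / (D + 1) := div_pos hε (by linarith)
      linarith)
    have hcq : |(q : ℝ) - c| ≤ ε / (D + 1) := by
      rw [abs_of_pos (by linarith)]; linarith
    refine (ciInf_le (cost_bdd hμ _) (q • v)).trans ?_
    rw [cost_eq, cost_eq, hμ.smul]
    have e : c • x - toReal (q • v) = c • (x - toReal v) + (-((q : ℝ) - c)) • toReal v := by
      rw [toReal_smul, smul_sub, neg_smul, sub_smul]; abel
    rw [e]
    have h1 := wt_add_le hw (c • (x - toReal v)) ((-((q : ℝ) - c)) • toReal v)
    rw [wt_smul, wt_smul, abs_neg] at h1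
    have h2 : |(q : ℝ)| ≤ |c| + |(q : ℝ) - c| := by
      have := abs_add_le c ((q : ℝ) - c)
      simpa using this
    have h3 : |(q : ℝ) - c| * D ≤ ε := by
      calc |(q : ℝ) - c| * D ≤ ε / (D + 1) * (D + 1) :=
            mul_le_mul hcq (by linarith) hD0 (div_nonneg hε.le (by linarith))
        _ = ε := div_mul_cancel₀ _ (by linarith)
    have h4 : |(q : ℝ)| * μ v ≤ (|c| + |(q : ℝ) - c|) * μ v :=
      mul_le_mul_of_nonneg_right h2 (hμ.nonneg v)
    rw [hD] at h3
    nlinarith
  · intro v
    exact hself v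

lemma ext_eq_iInf {μ : V → ℝ} (p : Seminorm ℝ c00) (h : ∀ v : V, p (toReal v) = μ v)
    (x : c00) : p x = ⨅ v, cost μ x v := by
  have hμ : IsPseudonorm μ := by
    refine ⟨fun v => ?_, fun v w => ?_, fun q v => ?_⟩
    · rw [← h]; exact apply_nonneg p _
    · rw [← h, ← h, ← h, toReal_add]; exact map_add_le_add p _ _
    · rw [← h, ← h, toReal_smul, map_smul_eq_mul]; rfl
  have hw : ∀ n, 0 ≤ μ (Finsupp.single n 1) := fun n => hμ.nonneg _
  have hpw : ∀ z : c00, p z ≤ wt (fun n => μ (Finsupp.single n 1)) z := by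
    intro z
    have h1 : z = ∑ n ∈ z.support, Finsupp.single n (z n) := (Finsupp.sum_single z).symm
    rw [wt_eq _ z z.support subset_rfl]
    conv_lhs => rw [h1]
    refine (Finset.le_sum_of_subadditive p (map_zero p).le (map_add_le_add p) z.support _).trans
      (le_of_eq ?_)
    apply Finset.sum_congr rfl
    intro n _
    have : (Finsupp.single n (z n) : c00) = (z n) • toReal (Finsupp.single n 1) := by
      rw [toReal, Finsupp.mapRange_single]; simp
    rw [this, map_smul_eq_mul, h, Real.norm_eq_abs]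
  apply le_antisymm
  · apply le_ciInf
    intro v
    rw [cost_eq, ← h]
    calc p x = p (toReal v + (x - toReal v)) := by congr 1; abel
      _ ≤ p (toReal v) + p (x - toReal v) := map_add_le_add p _ _
      _ ≤ _ := by linarith [hpw (x - toReal v)]
  · apply le_of_forall_pos_le_add
    intro ε hε
    obtain ⟨v, hv⟩ := exists_wt_lt hw x (ε / 2) (by linarith)
    refine (ciInf_le (cost_bdd hμ _) v).trans ?_
    rw [cost_eq, ← h]
    have h1 : p (toReal v) ≤ p x + p (x - toReal v) := by
      have := map_sub_le_add p x (x - toReal v)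
      simpa using this
    linarith [hpw (x - toReal v)]

/-- the extension is unique -/
theorem extension_unique {μ : V → ℝ} (p p' : Seminorm ℝ c00)
    (h : ∀ v : V, p (toReal v) = μ v) (h' : ∀ v : V, p' (toReal v) = μ v) : p = p' := by
  ext x
  rw [ext_eq_iInf p h, ext_eq_iInf p' h']

/-- the unique extension of a pseudonorm `μ ∈ 𝒫` to a pseudonorm (seminorm) on `c₀₀`, see
`exists_extension` and `extension_unique`. -/
noncomputable def extension (μ : PP) : Seminorm ℝ c00 := (exists_extension μ.2).choose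

lemma extension_spec (μ : PP) (v : V) : extension μ (toReal v) = μ.1 v :=
  (exists_extension μ.2).choose_spec v

/-- `c₀₀` with the seminorm `p` (a type synonym) -/
def C00 (_p : Seminorm ℝ c00) : Type := c00

noncomputable instance (p : Seminorm ℝ c00) : SeminormedAddCommGroup (C00 p) :=
  AddGroupSeminorm.toSeminormedAddCommGroup (E := c00) p.toAddGroupSeminorm

noncomputable instance (p : Seminorm ℝ c00) : Module ℝ (C00 p) :=
  inferInstanceAs (Module ℝ c00)

noncomputable instance (p : Seminorm ℝ c00) : NormedSpace ℝ (C00 p) where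
  norm_smul_le c x := le_of_eq (map_smul_eq_mul p c x)

/-- the real Banach space `X_p`: the (Hausdorff) completion of `c₀₀` for the seminorm `p`, that is the
completion of `c₀₀ / {p = 0}`. -/
abbrev XX (p : Seminorm ℝ c00) : Type := UniformSpace.Completion (C00 p)

/-- Szlenk derivation: `s_ε(K)` is `K` minus the union of all weak*-open sets `U` such that
`diam (K ∩ U) < ε`. -/
def szDeriv (X : Type) [NormedAddCommGroup X] [NormedSpace ℝ X] (ε : ℝ)
    (K : Set (StrongDual ℝ X)) : Set (StrongDual ℝ X) :=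
  {f | f ∈ K ∧ ∀ U : Set (WeakDual ℝ X), IsOpen U → StrongDual.toWeakDual f ∈ U →
    ¬ Metric.diam (K ∩ StrongDual.toWeakDual ⁻¹' U) < ε}

/-- `s_{ε₁} s_{ε₂} ⋯ s_{εₙ} (B_{X*})` for the list `[ε₁, …, εₙ]`. -/
def szIter (X : Type) [NormedAddCommGroup X] [NormedSpace ℝ X] :
    List ℝ → Set (StrongDual ℝ X)
  | [] => Metric.closedBall 0 1
  | ε :: l => szDeriv X ε (szIter X l)

/-- `X` has summable Szlenk index. -/
def SummableSzlenk (X : Type) [NormedAddCommGroup X] [NormedSpace ℝ X] : Prop :=
  ∃ M : ℝ, ∀ l : List ℝ, (∀ ε ∈ l, 0 < ε) → (szIter X l).Nonempty → l.sum ≤ M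

/-- `𝒫_∞`: the pseudonorms for which `X_μ` is infinite-dimensional, with the subspace topology. -/
def PInf : Type := {μ : PP // ¬ FiniteDimensional ℝ (XX (extension μ))}

instance : TopologicalSpace PInf := instTopologicalSpaceSubtype

/-- the set `𝒮` of all `μ ∈ 𝒫_∞` such that `X_μ` has summable Szlenk index. -/
def SS : Set PInf := {μ | SummableSzlenk (XX (extension μ.1))}

/-- `IsSigma n A`: the set `A` belongs to the Borel class `Σ⁰_{n+1}` (so `IsSigma 0` means open, and a
`Σ⁰_{n+2}` set is a countable union of complements of `Σ⁰_{n+1}` sets). -/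
def IsSigma {T : Type*} [TopologicalSpace T] : ℕ → Set T → Prop
  | 0, A => IsOpen A
  | n + 1, A => ∃ B : ℕ → Set T, (∀ i, IsSigma n (B i)) ∧ A = ⋃ i, (B i)ᶜ

end Pool.Agent.H51.Szlenk
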