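import Pool.Agent.H51.SzlenkCode
import Pool.Agent.H51.SzlenkDefs

/-!
The spaces attached to hereditary families of finite sets and their Szlenk derivations.
-/

set_option autoImplicit false
open Filter Topology

namespace Pool.Agent.H51.Szlenk

/-- admissible families: hereditary, containing all sets with at most one element -/
structure Adm (H : Set (Finset ℕ)) : Prop where
  hered : Hered H
  empty : ∅ ∈ H
  single : ∀ n, {n} ∈ H

/-- the norm attached to a family -/
noncomputable def nrm (H : Set (Finset ℕ)) (x : c00) : ℝ := ⨆ s : H, ∑ i ∈ s.1, |x i|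

lemma nrm_bdd (H : Set (Finset ℕ)) (x : c00) :
    BddAbove (Set.range fun s : H => ∑ i ∈ s.1, |x i|) := by
  refine ⟨∑ i ∈ x.support, |x i|, ?_⟩
  rintro _ ⟨s, rfl⟩
  have h1 : ∑ i ∈ s.1, |x i| = ∑ i ∈ s.1 ∩ x.support, |x i| := by
    classical
    symm
    apply Finset.sum_subset Finset.inter_subset_left
    intro i hi hi2
    rw [Finset.mem_inter, not_and] at hi2
    have := hi2 hi
    rw [Finsupp.notMem_support_iff] at this
    rw [this, abs_zero]
  simp only
  rw [h1]
  exact Finset.sum_le_sum_of_subset_of_nonneg Finset.inter_subset_right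
    (fun i _ _ => abs_nonneg _)

lemma le_nrm {H : Set (Finset ℕ)} {s : Finset ℕ} (hs : s ∈ H) (x : c00) :
    ∑ i ∈ s, |x i| ≤ nrm H x :=
  le_ciSup (nrm_bdd H x) ⟨s, hs⟩

lemma nrm_le {H : Set (Finset ℕ)} (hH : Adm H) {x : c00} {c : ℝ}
    (h : ∀ s ∈ H, ∑ i ∈ s, |x i| ≤ c) : nrm H x ≤ c := by
  have : Nonempty H := ⟨⟨∅, hH.empty⟩⟩
  exact ciSup_le fun s => h s.1 s.2

lemma abs_le_nrm {H : Set (Finset ℕ)} (hH : Adm H) (x : c00) (n : ℕ) : |x n| ≤ nrm H x := by
  have := le_nrm (hH.single n) x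
  simpa using this

/-- the norm as a seminorm -/
noncomputable def semi {H : Set (Finset ℕ)} (hH : Adm H) : Seminorm ℝ c00 :=
  Seminorm.ofSMulLE (nrm H)
    (le_antisymm (nrm_le hH (by intro s _; simp)) (by
      have := abs_le_nrm hH 0 0
      simpa using this))
    (by
      intro x y
      apply nrm_le hH
      intro s hs
      calc ∑ i ∈ s, |(x + y) i| ≤ ∑ i ∈ s, (|x i| + |y i|) :=
            Finset.sum_le_sum fun i _ => abs_add_le _ _
        _ = ∑ i ∈ s, |x i| + ∑ i ∈ s, |y i| := Finset.sum_add_distrib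
        _ ≤ nrm H x + nrm H y := add_le_add (le_nrm hs x) (le_nrm hs y))
    (by
      intro c x
      apply nrm_le hH
      intro s hs
      calc ∑ i ∈ s, |(c • x) i| = |c| * ∑ i ∈ s, |x i| := by
            rw [Finset.mul_sum]
            apply Finset.sum_congr rfl
            intro i _
            rw [Finsupp.smul_apply, smul_eq_mul, abs_mul]
        _ ≤ ‖c‖ * nrm H x := mul_le_mul_of_nonneg_left (le_nrm hs x) (abs_nonneg c))

lemma semi_apply {H : Set (Finset ℕ)} (hH : Adm H) (x : c00) : semi hH x = nrm H x := rfl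

/-- the embedding of `c₀₀` in the completion -/
noncomputable def emb (p : Seminorm ℝ c00) : C00 p →L[ℝ] XX p :=
  UniformSpace.Completion.toComplL

lemma norm_emb (p : Seminorm ℝ c00) (x : C00 p) : ‖emb p x‖ = p x :=
  UniformSpace.Completion.norm_coe x

lemma dense_emb (p : Seminorm ℝ c00) : DenseRange (emb p) :=
  UniformSpace.Completion.denseRange_coe

lemma emb_induction (p : Seminorm ℝ c00) {P : XX p → Prop} (hP : IsClosed {x | P x})
    (h : ∀ a : C00 p, P (emb p a)) (x : XX p) : P x :=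
  UniformSpace.Completion.induction_on x hP h

section fixed

variable {H : Set (Finset ℕ)} (hH : Adm H)

/-- coordinate functionals on `c₀₀` -/
noncomputable def cst0 (n : ℕ) : C00 (semi hH) →L[ℝ] ℝ :=
  LinearMap.mkContinuous
    ({ toFun := fun x : c00 => x n, map_add' := fun _ _ => rfl, map_smul' := fun _ _ => rfl } :
      c00 →ₗ[ℝ] ℝ) 1 (fun x => by
      rw [one_mul]
      exact abs_le_nrm hH x n)

lemma cst0_apply (n : ℕ) (x : c00) : cst0 hH n x = x n := rfl

/-- coordinate functionals -/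
noncomputable def cst (n : ℕ) : StrongDual ℝ (XX (semi hH)) :=
  (cst0 hH n).extend (emb (semi hH))

lemma cst_emb (n : ℕ) (x : c00) : cst hH n (emb (semi hH) x) = x n := by
  have := ContinuousLinearMap.extend_eq (cst0 hH n) (e := emb (semi hH)) (dense_emb _)
    (UniformSpace.Completion.isUniformInducing_coe _) x
  exact this

/-- the functional `∑ i ∈ t, e_i^*` -/
noncomputable def fn (t : Finset ℕ) : StrongDual ℝ (XX (semi hH)) := ∑ i ∈ t, cst hH i

lemma fn_emb (t : Finset ℕ) (x : c00) : fn hH t (emb (semi hH) x) = ∑ i ∈ t, x i := by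
  rw [fn, _root_.sum_apply]
  exact Finset.sum_congr rfl fun i _ => cst_emb hH i x

lemma norm_fn_le {t : Finset ℕ} (ht : t ∈ H) : ‖fn hH t‖ ≤ 1 := by
  apply ContinuousLinearMap.opNorm_le_bound _ zero_le_one
  intro x
  rw [one_mul]
  refine emb_induction _ (P := fun x => ‖fn hH t x‖ ≤ ‖x‖) ?_ ?_ x
  · exact isClosed_le (by fun_prop) (by fun_prop)
  · intro a
    rw [fn_emb, norm_emb]
    exact (Finset.abs_sum_le_sum_abs _ _).trans (le_nrm ht a)

lemma norm_cst_le (n : ℕ) : ‖cst hH n‖ ≤ 1 := by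
  have := norm_fn_le hH (hH.single n)
  simpa [fn] using this

lemma one_le_norm_cst (n : ℕ) : 1 ≤ ‖cst hH n‖ := by
  have h1 : cst hH n (emb (semi hH) (Finsupp.single n (1 : ℝ) : c00)) = 1 := by
    rw [cst_emb]; simp
  have h2 : ‖emb (semi hH) (Finsupp.single n (1 : ℝ) : c00)‖ ≤ 1 := by
    rw [norm_emb]
    apply nrm_le hH
    intro s _
    calc ∑ i ∈ s, |(Finsupp.single n (1 : ℝ) : c00) i| = ∑ i ∈ s, if i = n then 1 else 0 := by
          apply Finset.sum_congr rfl
          intro i _
          rw [Finsupp.single_apply]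
          by_cases h : n = i
          · simp [h]
          · simp [h, Ne.symm h]
      _ ≤ 1 := by
          rw [Finset.sum_ite_eq']
          split_ifs <;> norm_num
  have h3 := (cst hH n).le_opNorm (emb (semi hH) (Finsupp.single n (1 : ℝ) : c00))
  rw [h1, norm_one] at h3
  calc (1 : ℝ) ≤ ‖cst hH n‖ * ‖emb (semi hH) (Finsupp.single n (1 : ℝ) : c00)‖ := h3
    _ ≤ ‖cst hH n‖ * 1 := mul_le_mul_of_nonneg_left h2 (norm_nonneg _)
    _ = ‖cst hH n‖ := mul_one _

lemma tendsto_cst (x : XX (semi hH)) : Tendsto (fun n => cst hH n x) atTop (𝓝 0) := by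
  rw [Metric.tendsto_atTop]
  intro ε hε
  obtain ⟨a, ha⟩ := (dense_emb (semi hH)).exists_dist_lt x hε
  let a' : c00 := a
  refine ⟨a'.support.sup id + 1, fun n hn => ?_⟩
  have h0 : a' n = 0 := by
    by_contra h
    have h1 : n ∈ a'.support := Finsupp.mem_support_iff.mpr h
    have := Finset.le_sup (f := id) h1
    simp only [id] at this
    omega
  have h1 : cst hH n x = cst hH n (x - emb (semi hH) a) := by
    have h2 : cst hH n (emb (semi hH) a) = 0 := (cst_emb hH n a').trans h0
    rw [map_sub, h2, sub_zero]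
  rw [dist_zero_right, h1]
  calc ‖cst hH n (x - emb (semi hH) a)‖ ≤ ‖cst hH n‖ * ‖x - emb (semi hH) a‖ :=
        (cst hH n).le_opNorm _
    _ ≤ 1 * ‖x - emb (semi hH) a‖ :=
        mul_le_mul_of_nonneg_right (norm_cst_le hH n) (norm_nonneg _)
    _ < ε := by rw [one_mul, ← dist_eq_norm]; exact ha

lemma szDeriv_subset (X : Type) [NormedAddCommGroup X] [NormedSpace ℝ X] (ε : ℝ)
    (K : Set (StrongDual ℝ X)) : szDeriv X ε K ⊆ K := fun _ h => h.1

lemma szIter_subset (X : Type) [NormedAddCommGroup X] [NormedSpace ℝ X] :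
    ∀ l : List ℝ, szIter X l ⊆ Metric.closedBall 0 1
  | [] => subset_rfl
  | _ :: l => (szDeriv_subset X _ _).trans (szIter_subset X l)

lemma big_mem_szIter : ∀ (k : ℕ) (t : Finset ℕ), Big k t H →
    fn hH t ∈ szIter (XX (semi hH)) (List.replicate k 1)
  | 0, t, ht => by
    have ht' : t ∈ H := ht
    simp only [List.replicate, szIter]
    rw [mem_closedBall_zero_iff]
    exact norm_fn_le hH ht'
  | k + 1, t, ht => by
    rw [List.replicate_succ]
    refine ⟨big_mem_szIter k t (ht.pred hH.hered), ?_⟩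
    intro U hU hf hd
    set K := szIter (XX (semi hH)) (List.replicate k 1) with hK
    have hlim : Tendsto (fun n => StrongDual.toWeakDual (fn hH t + cst hH n)) atTop
        (𝓝 (StrongDual.toWeakDual (fn hH t))) := by
      rw [tendsto_iff_forall_eval_tendsto_topDualPairing]
      intro x
      have := (tendsto_cst hH x).const_add (fn hH t x)
      rw [add_zero] at this
      exact this
    have hev : ∀ᶠ n in atTop, StrongDual.toWeakDual (fn hH t + cst hH n) ∈ U :=
      hlim.eventually (hU.mem_nhds hf)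
    have hbig : ∃ᶠ n in atTop, Big k (insert n t) H := ht
    have hnt : ∀ᶠ n in atTop, n ∉ t := by
      filter_upwards [eventually_gt_atTop (t.sup id)] with n hn hnt
      have := Finset.le_sup (f := id) hnt
      simp only [id] at this
      omega
    obtain ⟨n, hn1, hn2, hn3⟩ := (hbig.and_eventually (hev.and hnt)).exists
    have hfn : fn hH (insert n t) = fn hH t + cst hH n := by
      rw [fn, Finset.sum_insert hn3, add_comm]; rfl
    have hm1 : fn hH (insert n t) ∈ K := big_mem_szIter k _ hn1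
    have hm0 : fn hH t ∈ K := big_mem_szIter k t (ht.pred hH.hered)
    have hb : Bornology.IsBounded (K ∩ StrongDual.toWeakDual ⁻¹' U) :=
      (Metric.isBounded_closedBall.subset (szIter_subset _ _)).subset Set.inter_subset_left
    have hdist := Metric.dist_le_diam_of_mem hb (x := fn hH (insert n t)) (y := fn hH t)
      ⟨hm1, by rw [Set.mem_preimage, hfn]; exact hn2⟩ ⟨hm0, hf⟩
    rw [hfn, dist_eq_norm, add_sub_cancel_left] at hdist
    linarith [one_le_norm_cst hH n]

theorem not_summable_of_big (h : ∀ k, Big k ∅ H) : ¬ SummableSzlenk (XX (semi hH)) := by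
  rintro ⟨M, hM⟩
  obtain ⟨k, hk⟩ := exists_nat_gt M
  have := hM (List.replicate k 1) (by
    intro ε hε
    rw [List.eq_of_mem_replicate hε]; norm_num) ⟨_, big_mem_szIter hH k ∅ (h k)⟩
  rw [List.sum_replicate, nsmul_eq_mul, mul_one] at this
  linarith

end fixed

/-! ### bounded rank implies summable Szlenk index -/

/-- `y` is a sum of successive blocks of norm at most one, sparse with respect to `g` -/
inductive Blk (H : Set (Finset ℕ)) (g : ℕ → ℕ) : ℕ → c00 → Prop
  | zero (N : ℕ) : Blk H g N 0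
  | add (N N' : ℕ) (y x : c00) (hy : Blk H g N y) (hN : N ≤ N')
      (hx : ∀ i, x i ≠ 0 → N ≤ i ∧ g N ≤ i ∧ i < N') (hn : nrm H x ≤ 1) : Blk H g N' (y + x)

lemma exists_sparse {H : Set (Finset ℕ)} {C : ℕ} :
    ∃ g : ℕ → ℕ, ∀ N, ∀ t : Finset ℕ, (∀ i ∈ t, i < N) → t.card ≤ C →
      ¬ Big (C + 1 - t.card) t H → ∀ n, g N ≤ n → ¬ Big (C - t.card) (insert n t) H := by
  classical
  have h : ∀ N : ℕ, ∃ a : ℕ, ∀ t ∈ (Finset.range N).powerset, t.card ≤ C →
      ¬ Big (C + 1 - t.card) t H → ∀ n, a ≤ n → ¬ Big (C - t.card) (insert n t) H := by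
    intro N
    have h1 : ∀ t ∈ (Finset.range N).powerset, ∀ᶠ a in atTop, t.card ≤ C →
        ¬ Big (C + 1 - t.card) t H → ¬ Big (C - t.card) (insert a t) H := by
      intro t _
      by_cases h2 : t.card ≤ C ∧ ¬ Big (C + 1 - t.card) t H
      · have h3 : C + 1 - t.card = (C - t.card) + 1 := by omega
        have h4 := h2.2
        rw [h3] at h4
        have h5 : ¬ ∃ᶠ n in atTop, Big (C - t.card) (insert n t) H := h4
        rw [not_frequently] at h5
        filter_upwards [h5] with a ha _ _ using ha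
      · filter_upwards with a h3 h4
        exact absurd ⟨h3, h4⟩ h2
    have h6 := (Filter.eventually_all_finset _).mpr h1
    obtain ⟨a, ha⟩ := eventually_atTop.mp h6
    exact ⟨a, fun t ht hc hb n hn => ha n hn t ht hc hb⟩
  choose g hg using h
  refine ⟨g, fun N t ht hc hb n hn => hg N t ?_ hc hb n hn⟩
  rw [Finset.mem_powerset]
  intro i hi
  exact Finset.mem_range.mpr (ht i hi)

lemma Blk.supp {H : Set (Finset ℕ)} {g : ℕ → ℕ} {N : ℕ} {y : c00} (h : Blk H g N y) :
    ∀ i, y i ≠ 0 → i < N := by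
  induction h with
  | zero N => intro i hi; simp at hi
  | add N N' y x hy hN hx hn ih =>
    intro i hi
    by_cases h1 : x i = 0
    · have : y i ≠ 0 := by
        intro h2; apply hi; simp [h1, h2]
      exact lt_of_lt_of_le (ih i this) hN
    · exact (hx i h1).2.2

lemma Blk.bound {H : Set (Finset ℕ)} (hH : Adm H) {C : ℕ} {g : ℕ → ℕ}
    (hC : ¬ Big (C + 1) ∅ H)
    (hg : ∀ N, ∀ t : Finset ℕ, (∀ i ∈ t, i < N) → t.card ≤ C →
      ¬ Big (C + 1 - t.card) t H → ∀ n, g N ≤ n → ¬ Big (C - t.card) (insert n t) H)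
    {N : ℕ} {y : c00} (h : Blk H g N y) :
    ∀ s ∈ H, ∃ t ⊆ s, (∀ i ∈ t, i < N) ∧ t.card ≤ C ∧ ¬ Big (C + 1 - t.card) t H ∧
      ∑ i ∈ s, |y i| ≤ t.card := by
  classical
  induction h with
  | zero N =>
    intro s _
    exact ⟨∅, by simp, by simp, by simp, by simpa using hC, by simp⟩
  | add N N' y x hy hN hx hn ih =>
    intro s hs
    obtain ⟨t, hts, htN, htC, htB, hsum⟩ := ih s hs
    by_cases hne : ∃ n ∈ s, x n ≠ 0
    · obtain ⟨n, hns, hxn⟩ := hne
      obtain ⟨h1, h2, h3⟩ := hx n hxn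
      have hnt : n ∉ t := fun h => by
        have := htN n h
        omega
      have hcard : (insert n t).card = t.card + 1 := Finset.card_insert_of_notMem hnt
      have hsub : insert n t ⊆ s := Finset.insert_subset hns hts
      have hb := hg N t htN htC htB n h2
      have hlt : t.card + 1 ≤ C := by
        by_contra hcon
        have : C - t.card = 0 := by omega
        rw [this] at hb
        exact hb (hH.hered s hs _ hsub)
      refine ⟨insert n t, hsub, ?_, by omega, ?_, ?_⟩
      · intro i hi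
        rcases Finset.mem_insert.mp hi with rfl | hi
        · exact h3
        · exact lt_of_lt_of_le (htN i hi) hN
      · rw [hcard]
        have : C + 1 - (t.card + 1) = C - t.card := by omega
        rw [this]; exact hb
      · rw [hcard]
        push_cast
        calc ∑ i ∈ s, |(y + x) i| ≤ ∑ i ∈ s, (|y i| + |x i|) :=
              Finset.sum_le_sum fun i _ => abs_add_le _ _
          _ = ∑ i ∈ s, |y i| + ∑ i ∈ s, |x i| := Finset.sum_add_distrib
          _ ≤ t.card + 1 := add_le_add hsum ((le_nrm hs x).trans hn)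
    · push Not at hne
      refine ⟨t, hts, fun i hi => lt_of_lt_of_le (htN i hi) hN, htC, htB, ?_⟩
      refine le_trans (le_of_eq ?_) hsum
      apply Finset.sum_congr rfl
      intro i hi
      rw [Finsupp.add_apply, hne i hi, add_zero]

lemma Blk.nrm_le' {H : Set (Finset ℕ)} (hH : Adm H) {C : ℕ} {g : ℕ → ℕ}
    (hC : ¬ Big (C + 1) ∅ H)
    (hg : ∀ N, ∀ t : Finset ℕ, (∀ i ∈ t, i < N) → t.card ≤ C →
      ¬ Big (C + 1 - t.card) t H → ∀ n, g N ≤ n → ¬ Big (C - t.card) (insert n t) H)
    {N : ℕ} {y : c00} (h : Blk H g N y) : nrm H y ≤ C := by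
  apply nrm_le hH
  intro s hs
  obtain ⟨t, -, -, h1, -, h2⟩ := h.bound hH hC hg s hs
  refine h2.trans ?_
  exact_mod_cast h1

/-- restriction of a vector to coordinates `≥ N` -/
noncomputable def tail (N : ℕ) (z : c00) : c00 := by
  classical exact z.filter (fun i => N ≤ i)

lemma tail_apply (N : ℕ) (z : c00) (i : ℕ) : tail N z i = if N ≤ i then z i else 0 := by
  classical
  unfold tail
  rw [Finsupp.filter_apply]

lemma nrm_tail_le {H : Set (Finset ℕ)} (hH : Adm H) (N : ℕ) (z : c00) :
    nrm H (tail N z) ≤ nrm H z := by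
  apply nrm_le hH
  intro s hs
  refine le_trans ?_ (le_nrm hs z)
  apply Finset.sum_le_sum
  intro i _
  rw [tail_apply]
  split_ifs
  · exact le_rfl
  · rw [abs_zero]; exact abs_nonneg _

lemma exists_supp_lt (z : c00) (N : ℕ) : ∃ N', N ≤ N' ∧ ∀ i, z i ≠ 0 → i < N' := by
  refine ⟨max N (z.support.sup id + 1), le_max_left _ _, fun i hi => ?_⟩
  have := Finset.le_sup (f := id) (Finsupp.mem_support_iff.mpr hi)
  simp only [id] at this
  have := le_max_right N (z.support.sup id + 1)
  omega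

lemma nrm_neg {H : Set (Finset ℕ)} (z : c00) : nrm H (-z) = nrm H z := by
  unfold nrm
  simp

section bounded

variable {H : Set (Finset ℕ)} (hH : Adm H) {C : ℕ} {g : ℕ → ℕ}
    (hC : ¬ Big (C + 1) ∅ H)
    (hg : ∀ N, ∀ t : Finset ℕ, (∀ i ∈ t, i < N) → t.card ≤ C →
      ¬ Big (C + 1 - t.card) t H → ∀ n, g N ≤ n → ¬ Big (C - t.card) (insert n t) H)

include hC hg

lemma dual_le_of_blk {N : ℕ} {y : c00} (h : Blk H g N y) (f : StrongDual ℝ (XX (semi hH))) :
    f (emb (semi hH) y) ≤ ‖f‖ * C := by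
  calc f (emb (semi hH) y) ≤ ‖f (emb (semi hH) y)‖ := Real.le_norm_self _
    _ ≤ ‖f‖ * ‖emb (semi hH) y‖ := f.le_opNorm _
    _ ≤ ‖f‖ * C := by
      apply mul_le_mul_of_nonneg_left _ (norm_nonneg _)
      rw [norm_emb]
      exact h.nrm_le' hH hC hg

/-- functionals have small tails -/
lemma shrinking (f : StrongDual ℝ (XX (semi hH))) {δ : ℝ} (hδ : 0 < δ) :
    ∃ N : ℕ, ∀ x : c00, (∀ i, x i ≠ 0 → N ≤ i) → nrm H x ≤ 1 →
      |f (emb (semi hH) x)| ≤ δ := by
  by_contra hcon
  push Not at hcon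
  have key : ∀ m : ℕ, ∃ N y, Blk H g N y ∧ m * δ ≤ f (emb (semi hH) y) := by
    intro m
    induction m with
    | zero =>
      refine ⟨0, 0, Blk.zero 0, ?_⟩
      have : f (emb (semi hH) (0 : c00)) = 0 := by
        have := map_zero (emb (semi hH))
        have h0 : emb (semi hH) (0 : c00) = 0 := this
        rw [h0, map_zero]
      rw [this]; simp
    | succ m ih =>
      obtain ⟨N, y, hy, hfy⟩ := ih
      obtain ⟨x, hx1, hx2, hx3⟩ := hcon (max N (g N))
      -- choose the sign
      obtain ⟨x', hx1', hx2', hx3'⟩ : ∃ x' : c00, (∀ i, x' i ≠ 0 → max N (g N) ≤ i) ∧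
          nrm H x' ≤ 1 ∧ δ ≤ f (emb (semi hH) x') := by
        rcases le_total 0 (f (emb (semi hH) x)) with h0 | h0
        · rw [abs_of_nonneg h0] at hx3
          exact ⟨x, hx1, hx2, hx3.le⟩
        · rw [abs_of_nonpos h0] at hx3
          refine ⟨-x, fun i hi => hx1 i ?_, by rw [nrm_neg]; exact hx2, ?_⟩
          · intro h; apply hi; simp [h]
          · have h1 : emb (semi hH) (-x : c00) = - emb (semi hH) x :=
              map_neg (emb (semi hH)) (x : C00 (semi hH))
            rw [h1, map_neg]; exact hx3.le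
      obtain ⟨N', hN', hxN'⟩ := exists_supp_lt x' N
      refine ⟨N', y + x', Blk.add N N' y x' hy hN' (fun i hi => ?_) hx2', ?_⟩
      · have := hx1' i hi
        exact ⟨le_trans (le_max_left _ _) this, le_trans (le_max_right _ _) this, hxN' i hi⟩
      · have h1 : emb (semi hH) (y + x' : c00) = emb (semi hH) y + emb (semi hH) x' :=
          map_add (emb (semi hH)) (y : C00 (semi hH)) (x' : C00 (semi hH))
        rw [h1, map_add]
        push_cast
        linarith
  obtain ⟨m, hm⟩ := exists_nat_gt (‖f‖ * C / δ)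
  obtain ⟨N, y, hy, hfy⟩ := key m
  have h1 := dual_le_of_blk hH hC hg hy f
  rw [div_lt_iff₀ hδ] at hm
  linarith

/-- one step of the Szlenk derivation: a functional in the derived set can be moved -/
lemma step {ε : ℝ} (hε : 0 < ε) {K : Set (StrongDual ℝ (XX (semi hH)))}
    {f : StrongDual ℝ (XX (semi hH))}
    (hf : f ∈ szDeriv (XX (semi hH)) ε K) {N : ℕ} {y : c00} (hy : Blk H g N y)
    {δ : ℝ} (hδ : 0 < δ) :
    ∃ f1 ∈ K, ∃ N1 y1, Blk H g N1 y1 ∧
      f (emb (semi hH) y) + ε / 2 - 4 * δ ≤ f1 (emb (semi hH) y1) := by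
  obtain ⟨N0, hN0⟩ := shrinking hH hC hg f hδ
  set N2 := max N0 (max N (g N)) with hN2
  set η : ℝ := δ / (N2 + 1) with hη
  have hη0 : 0 < η := by positivity
  -- the neighbourhood
  let ev : c00 → WeakDual ℝ (XX (semi hH)) → ℝ := fun x φ => φ (emb (semi hH) x)
  have hev : ∀ x, Continuous (ev x) := fun x => WeakDual.eval_continuous _
  let U : Set (WeakDual ℝ (XX (semi hH))) :=
    (⋂ i : Fin N2, {φ | |ev (Finsupp.single (i : ℕ) 1) φ -
      f (emb (semi hH) (Finsupp.single (i : ℕ) (1 : ℝ) : c00))| < η}) ∩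
    {φ | |ev y φ - f (emb (semi hH) y)| < δ}
  have hU : IsOpen U := by
    apply IsOpen.inter
    · apply isOpen_iInter_of_finite
      intro i
      exact isOpen_lt (((hev _).sub continuous_const).abs) continuous_const
    · exact isOpen_lt (((hev _).sub continuous_const).abs) continuous_const
  have hfU : StrongDual.toWeakDual f ∈ U := by
    refine ⟨?_, ?_⟩
    · rw [Set.mem_iInter]
      intro i
      have : ev (Finsupp.single (i : ℕ) 1) (StrongDual.toWeakDual f)
        = f (emb (semi hH) (Finsupp.single (i : ℕ) (1 : ℝ) : c00)) := rfl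
      simp only [Set.mem_ofPred_eq]
      rw [this, sub_self, abs_zero]; exact hη0
    · have : ev y (StrongDual.toWeakDual f) = f (emb (semi hH) y) := rfl
      simp only [Set.mem_ofPred_eq]
      rw [this, sub_self, abs_zero]; exact hδ
  have hdiam := hf.2 U hU hfU
  set r : ℝ := max 0 (ε / 2 - δ) with hr
  have hr0 : 0 ≤ r := le_max_left _ _
  have hr1 : r < ε / 2 := by
    rw [hr]; exact max_lt (by linarith) (by linarith)
  obtain ⟨f1, ⟨hf1K, hf1U⟩, hf1r⟩ : ∃ f1 ∈ K ∩ StrongDual.toWeakDual ⁻¹' U, r < ‖f1 - f‖ := by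
    by_contra hcon
    push Not at hcon
    apply hdiam
    have : Metric.diam (K ∩ StrongDual.toWeakDual ⁻¹' U) ≤ 2 * r := by
      apply Metric.diam_le_of_forall_dist_le (by linarith)
      intro a ha b hb
      have h1 := hcon a ha
      have h2 := hcon b hb
      calc dist a b ≤ dist a f + dist f b := dist_triangle _ _ _
        _ = ‖a - f‖ + ‖b - f‖ := by rw [dist_eq_norm, dist_comm f b, dist_eq_norm]
        _ ≤ 2 * r := by linarith
    linarith
  -- find a vector
  obtain ⟨x0, hx0, hx0'⟩ := (f1 - f).exists_lt_apply_of_lt_opNorm hf1r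
  obtain ⟨z, hz1, hz2⟩ : ∃ z : c00, ‖emb (semi hH) z‖ < 1 ∧
      r < ‖(f1 - f) (emb (semi hH) z)‖ := by
    have hopen : IsOpen {x : XX (semi hH) | ‖x‖ < 1 ∧ r < ‖(f1 - f) x‖} := by
      apply IsOpen.inter
      · exact isOpen_lt continuous_norm continuous_const
      · exact isOpen_lt continuous_const ((f1 - f).continuous.norm)
    obtain ⟨z, hz⟩ := (dense_emb (semi hH)).exists_mem_open hopen ⟨x0, hx0, hx0'⟩
    exact ⟨z, hz.1, hz.2⟩
  -- choose the sign
  obtain ⟨z', hz1', hz2'⟩ : ∃ z' : c00, nrm H z' ≤ 1 ∧ r < (f1 - f) (emb (semi hH) z') := by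
    rw [norm_emb, semi_apply] at hz1
    rcases le_total 0 ((f1 - f) (emb (semi hH) z)) with h0 | h0
    · rw [Real.norm_of_nonneg h0] at hz2
      exact ⟨z, hz1.le, hz2⟩
    · rw [Real.norm_of_nonpos h0] at hz2
      refine ⟨-z, by rw [nrm_neg]; exact hz1.le, ?_⟩
      have h1 : emb (semi hH) (-z : c00) = - emb (semi hH) z :=
        map_neg (emb (semi hH)) (z : C00 (semi hH))
      rw [h1, map_neg]; exact hz2
  set x : c00 := tail N2 z' with hx
  have hxn : nrm H x ≤ 1 := (nrm_tail_le hH N2 z').trans hz1'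
  have hxs : ∀ i, x i ≠ 0 → N2 ≤ i := by
    intro i hi
    by_contra h
    apply hi
    rw [hx, tail_apply, if_neg h]
  -- the head of z' contributes little
  have hhead : |(f1 - f) (emb (semi hH) (z' - x : c00))| ≤ δ := by
    have hdec : (z' - x : c00) = ∑ i ∈ Finset.range N2, (z' i) • (Finsupp.single i (1 : ℝ) : c00) := by
      ext j
      rw [Finsupp.sub_apply, hx, tail_apply, Finsupp.finsetSum_apply]
      simp only [Finsupp.smul_apply, Finsupp.single_apply, smul_eq_mul, mul_ite, mul_one, mul_zero]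
      rw [Finset.sum_ite_eq' (Finset.range N2) j (fun i => z' i)]
      by_cases hj : N2 ≤ j
      · simp [hj]
      · simp [hj, not_le.mp hj]
    have hlin : (f1 - f) (emb (semi hH) (z' - x : c00)) = ∑ i ∈ Finset.range N2,
        z' i * (f1 - f) (emb (semi hH) (Finsupp.single i (1 : ℝ) : c00)) := by
      rw [hdec]
      have h1 : emb (semi hH) (∑ i ∈ Finset.range N2, (z' i) •
          (Finsupp.single i (1 : ℝ) : c00) : c00) = ∑ i ∈ Finset.range N2,
          (z' i) • emb (semi hH) (Finsupp.single i (1 : ℝ) : c00) := by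
        have h2 := map_sum (emb (semi hH)) (fun i => ((z' i) •
          (Finsupp.single i (1 : ℝ) : c00) : C00 (semi hH))) (Finset.range N2)
        refine h2.trans ?_
        apply Finset.sum_congr rfl
        intro i _
        exact map_smul (emb (semi hH)) (z' i) ((Finsupp.single i (1 : ℝ) : c00) : C00 (semi hH))
      rw [h1, map_sum]
      apply Finset.sum_congr rfl
      intro i _
      rw [map_smul, smul_eq_mul]
    rw [hlin]
    calc |∑ i ∈ Finset.range N2,
        z' i * (f1 - f) (emb (semi hH) (Finsupp.single i (1 : ℝ) : c00))|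
        ≤ ∑ i ∈ Finset.range N2,
          |z' i * (f1 - f) (emb (semi hH) (Finsupp.single i (1 : ℝ) : c00))| :=
          Finset.abs_sum_le_sum_abs _ _
      _ ≤ ∑ _i ∈ Finset.range N2, η := by
          apply Finset.sum_le_sum
          intro i hi
          rw [abs_mul]
          have h1 : |z' i| ≤ 1 := (abs_le_nrm hH z' i).trans hz1'
          have h2 : |(f1 - f) (emb (semi hH) (Finsupp.single i (1 : ℝ) : c00))| < η := by
            have h3 := Set.mem_iInter.mp hf1U.1 ⟨i, Finset.mem_range.mp hi⟩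
            exact h3
          calc |z' i| * |(f1 - f) (emb (semi hH) (Finsupp.single i (1 : ℝ) : c00))|
              ≤ 1 * η := mul_le_mul h1 h2.le (abs_nonneg _) zero_le_one
            _ = η := one_mul _
      _ = N2 * η := by rw [Finset.sum_const, Finset.card_range, nsmul_eq_mul]
      _ ≤ (N2 + 1) * η := by
          apply mul_le_mul_of_nonneg_right _ hη0.le; linarith
      _ = δ := by rw [hη]; field_simp
  have hsplit : (f1 - f) (emb (semi hH) z') =
      (f1 - f) (emb (semi hH) (z' - x : c00)) + (f1 - f) (emb (semi hH) x) := by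
    have h1 : emb (semi hH) (z' - x : c00) = emb (semi hH) z' - emb (semi hH) x :=
      map_sub (emb (semi hH)) (z' : C00 (semi hH)) (x : C00 (semi hH))
    rw [h1, map_sub]; ring
  have hfx : |f (emb (semi hH) x)| ≤ δ :=
    hN0 x (fun i hi => le_trans (le_max_left _ _) (hxs i hi)) hxn
  have hf1y : |f1 (emb (semi hH) y) - f (emb (semi hH) y)| < δ := hf1U.2
  obtain ⟨N1, hN1, hxN1⟩ := exists_supp_lt x N
  refine ⟨f1, hf1K, N1, y + x, Blk.add N N1 y x hy hN1 (fun i hi => ?_) hxn, ?_⟩
  · have h1 := hxs i hi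
    have h2 := le_max_right N0 (max N (g N))
    have h3 := le_max_left N (g N)
    have h4 := le_max_right N (g N)
    refine ⟨by omega, by omega, hxN1 i hi⟩
  · have h1 : emb (semi hH) (y + x : c00) = emb (semi hH) y + emb (semi hH) x :=
      map_add (emb (semi hH)) (y : C00 (semi hH)) (x : C00 (semi hH))
    rw [h1, map_add]
    have h2 : (f1 - f) (emb (semi hH) x) = f1 (emb (semi hH) x) - f (emb (semi hH) x) := rfl
    have h3 : ε / 2 - δ ≤ r := le_max_right _ _
    have h4 := abs_le.mp hhead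
    have h5 := abs_le.mp hfx
    have h6 := abs_lt.mp hf1y
    linarith

lemma move : ∀ l : List ℝ, (∀ ε ∈ l, 0 < ε) → ∀ f ∈ szIter (XX (semi hH)) l,
    ∀ (N : ℕ) (y : c00), Blk H g N y → ∀ δ : ℝ, 0 < δ →
    ∃ f1 : StrongDual ℝ (XX (semi hH)), ‖f1‖ ≤ 1 ∧ ∃ N1 y1, Blk H g N1 y1 ∧
      f (emb (semi hH) y) + l.sum / 2 - δ ≤ f1 (emb (semi hH) y1)
  | [], _, f, hf, N, y, hy, δ, hδ => by
    refine ⟨f, mem_closedBall_zero_iff.mp hf, N, y, hy, ?_⟩
    simp only [List.sum_nil]
    linarith
  | ε :: l, hl, f, hf, N, y, hy, δ, hδ => by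
    obtain ⟨f1, hf1, N1, y1, hy1, h1⟩ := step hH hC hg (hl ε (by simp)) hf hy
      (δ := δ / 8) (by linarith)
    obtain ⟨f2, hf2, N2, y2, hy2, h2⟩ := move l (fun e he => hl e (by simp [he])) f1 hf1 N1 y1
      hy1 (δ / 2) (by linarith)
    refine ⟨f2, hf2, N2, y2, hy2, ?_⟩
    rw [List.sum_cons]
    linarith

end bounded

theorem summable_of_not_big {H : Set (Finset ℕ)} (hH : Adm H) {C : ℕ}
    (hC : ¬ Big (C + 1) ∅ H) : SummableSzlenk (XX (semi hH)) := by
  obtain ⟨g, hg⟩ := exists_sparse (H := H) (C := C)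
  refine ⟨2 * C + 2, fun l hl hne => ?_⟩
  obtain ⟨f, hf⟩ := hne
  obtain ⟨f1, hf1, N1, y1, hy1, h1⟩ := move hH hC hg l hl f hf 0 0 (Blk.zero 0) 1 one_pos
  have h2 := dual_le_of_blk hH hC hg hy1 f1
  have h3 : f (emb (semi hH) (0 : c00)) = 0 := by
    have h0 : emb (semi hH) (0 : c00) = 0 := map_zero (emb (semi hH))
    rw [h0, map_zero]
  rw [h3] at h1
  have h4 : ‖f1‖ * C ≤ 1 * C := mul_le_mul_of_nonneg_right hf1 (by positivity)
  linarith

end Pool.Agent.H51.Szlenk
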